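import Mathlib

set_option autoImplicit false

namespace Pool.Agent.H.MP_fa5fea_an

open Matrix

/-- Pauli matrices -/
def pauli : Fin 3 → Matrix (Fin 2) (Fin 2) ℂ :=
  ![!![0, 1; 1, 0], !![0, -Complex.I; Complex.I, 0], !![1, 0; 0, -1]]

/-- the tetrahedral triple -/
def tri : Fin 3 → Matrix (Fin 3) (Fin 3) ℂ :=
  ![!![0, 0, 0; 0, 0, 3; 0, 3, 0], !![0, 0, 3; 0, 0, 0; 3, 0, 0], !![0, 3, 0; 3, 0, 0; 0, 0, 0]]

lemma adjug (w v z a0 a1 a2 c0 c1 c2 : ℂ)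
    (h0 : ((-1) * z) * a0 + ((3)) * a1 + ((-1) * v) * c0 + ((-3) * Complex.I) * c2 = 0)
    (h1 : ((3)) * a0 + ((-1) * z) * a1 + ((-1) * v) * c1 + ((3)) * c2 = 0)
    (h2 : ((-1) * z) * a2 + ((-3) * Complex.I) * c0 + ((3)) * c1 + ((-1) * v) * c2 = 0)
    (h3 : ((-1) * w) * a0 + ((3) * Complex.I) * a2 + ((1) * z) * c0 + ((-3)) * c1 = 0)
    (h4 : ((-1) * w) * a1 + ((3)) * a2 + ((-3)) * c0 + ((1) * z) * c1 = 0)
    (h5 : ((3) * Complex.I) * a0 + ((3)) * a1 + ((-1) * w) * a2 + ((1) * z) * c2 = 0)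
    (q : ℂ) (hq : q = (-1) * z ^ 6 + (-3) * w * v * z ^ 4 + (-3) * w ^ 2 * v ^ 2 * z ^ 2 + (-1) * w ^ 3 * v ^ 3 + (-18) * z ^ 4 + (108) * v ^ 2 * z * Complex.I + (-36) * w * v * z ^ 2 + (-108) * w ^ 2 * z * Complex.I + (-18) * w ^ 2 * v ^ 2 + (-81) * z ^ 2 + (-81) * w * v) :
    q * a0 = 0 ∧ q * a1 = 0 ∧ q * a2 = 0 ∧ q * c0 = 0 ∧ q * c1 = 0 ∧ q * c2 = 0 := by
  have hI : Complex.I ^ 2 + 1 = 0 := by simp
  subst hq
  refine ⟨?_, ?_, ?_, ?_, ?_, ?_⟩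
  · linear_combination ((1) * z ^ 5 + (2) * w * v * z ^ 3 + (1) * w ^ 2 * v ^ 2 * z + (18) * z ^ 3 + (-27) * v ^ 2 * Complex.I + (-9) * v ^ 2 * z + (27) * w ^ 2 * Complex.I + (-9) * w ^ 2 * z + (81) * z) * h0 + ((9) * z ^ 3 * Complex.I + (3) * z ^ 4 + (9) * v ^ 2 * z * Complex.I + (9) * w * v * z * Complex.I + (-9) * w ^ 2 * z * Complex.I + (-3) * w ^ 2 * v ^ 2 + (81) * z * Complex.I + (27) * z ^ 2 + (27) * v ^ 2 + (-27) * w * v + (-27) * w ^ 2) * h1 + ((3) * v * z ^ 3 * Complex.I + (-3) * w * z ^ 3 * Complex.I + (3) * w * v ^ 2 * z * Complex.I + (-3) * w ^ 2 * v * z * Complex.I + (81) * v * z * Complex.I + (18) * v * z ^ 2 + (27) * w * z * Complex.I + (9) * w * z ^ 2 + (-9) * w ^ 2 * v + (-81) * w) * h2 + ((1) * v * z ^ 4 + (2) * w * v ^ 2 * z ^ 2 + (1) * w ^ 2 * v ^ 3 + (54) * v * z * Complex.I + (27) * v * z ^ 2 + (-9) * v ^ 3 + (54) * w * z * Complex.I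 + (9) * w * z ^ 2 + (9) * w * v ^ 2 + (-81) * w) * h3 + ((6) * v * z ^ 3 + (9) * v ^ 3 * Complex.I + (9) * w * z ^ 2 * Complex.I + (6) * w * v ^ 2 * z + (54) * v * z + (81) * w * Complex.I) * h4 + ((3) * z ^ 4 * Complex.I + (3) * v ^ 2 * z ^ 2 * Complex.I + (3) * w * v * z ^ 2 * Complex.I + (3) * w * v ^ 3 * Complex.I + (27) * z ^ 2 * Complex.I + (-9) * z ^ 3 + (27) * v ^ 2 * Complex.I + (18) * v ^ 2 * z + (9) * w * v * z + (-81) * z) * h5 - (((9) * z ^ 4 + (9) * v ^ 2 * z ^ 2 + (9) * w * v * z ^ 2 + (9) * w * v ^ 3 + (81) * z ^ 2 + (81) * v ^ 2) * a0 + ((162) * v * z + (162) * w * z) * a2 + ((-9) * v * z ^ 3 + (9) * w * z ^ 3 + (-9) * w * v ^ 2 * z + (9) * w ^ 2 * v * z + (-243) * v * z + (-81) * w * z) * c0 + ((81) * v ^ 2 + (-81) * w ^ 2) * c2) * hI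
  · linear_combination ((-9) * z ^ 3 * Complex.I + (3) * z ^ 4 + (9) * v ^ 2 * z * Complex.I + (-9) * w * v * z * Complex.I + (-9) * w ^ 2 * z * Complex.I + (-3) * w ^ 2 * v ^ 2 + (-81) * z * Complex.I + (27) * z ^ 2 + (-27) * v ^ 2 + (-27) * w * v + (27) * w ^ 2) * h0 + ((1) * z ^ 5 + (2) * w * v * z ^ 3 + (1) * w ^ 2 * v ^ 2 * z + (18) * z ^ 3 + (-27) * v ^ 2 * Complex.I + (9) * v ^ 2 * z + (27) * w ^ 2 * Complex.I + (9) * w ^ 2 * z + (81) * z) * h1 + ((18) * v * z ^ 2 * Complex.I + (3) * v * z ^ 3 + (-9) * w * z ^ 2 * Complex.I + (3) * w * z ^ 3 + (3) * w * v ^ 2 * z + (9) * w ^ 2 * v * Complex.I + (3) * w ^ 2 * v * z + (81) * v * z + (81) * w * Complex.I + (-27) * w * z) * h2 + ((6) * v * z ^ 3 + (9) * v ^ 3 * Complex.I + (9) * w * z ^ 2 * Complex.I + (6) * w * v ^ 2 * z + (54) * v * z + (81) * w * Complex.I) * h3 + ((1) * v * z ^ 4 + (2) * w * v ^ 2 *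 z ^ 2 + (1) * w ^ 2 * v ^ 3 + (-54) * v * z * Complex.I + (27) * v * z ^ 2 + (9) * v ^ 3 + (54) * w * z * Complex.I + (-9) * w * z ^ 2 + (9) * w * v ^ 2 + (81) * w) * h4 + ((9) * z ^ 3 * Complex.I + (-3) * z ^ 4 + (18) * v ^ 2 * z * Complex.I + (3) * v ^ 2 * z ^ 2 + (-9) * w * v * z * Complex.I + (-3) * w * v * z ^ 2 + (3) * w * v ^ 3 + (81) * z * Complex.I + (-27) * z ^ 2 + (27) * v ^ 2) * h5 - (((27) * z ^ 3 + (54) * v ^ 2 * z + (-27) * w * v * z + (243) * z) * a0 + ((27) * v ^ 3 + (27) * w * z ^ 2 + (243) * w) * a2 + ((-54) * v * z ^ 2 + (27) * w * z ^ 2 + (-27) * w ^ 2 * v + (-243) * w) * c0 + ((27) * z ^ 3 + (-27) * v ^ 2 * z + (27) * w * v * z + (27) * w ^ 2 * z + (243) * z) * c2) * hI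
  · linear_combination ((3) * v * z ^ 3 * Complex.I + (-3) * w * z ^ 3 * Complex.I + (3) * w * v ^ 2 * z * Complex.I + (-3) * w ^ 2 * v * z * Complex.I + (-27) * v * z * Complex.I + (9) * v * z ^ 2 + (-81) * w * z * Complex.I + (18) * w * z ^ 2 + (-9) * w * v ^ 2 + (-81) * v) * h0 + ((9) * v * z ^ 2 * Complex.I + (3) * v * z ^ 3 + (-18) * w * z ^ 2 * Complex.I + (3) * w * z ^ 3 + (-9) * w * v ^ 2 * Complex.I + (3) * w * v ^ 2 * z + (3) * w ^ 2 * v * z + (-81) * v * Complex.I + (-27) * v * z + (81) * w * z) * h1 + ((1) * z ^ 5 + (2) * w * v * z ^ 3 + (1) * w ^ 2 * v ^ 2 * z + (36) * w * v * z + (-81) * z) * h2 + ((3) * z ^ 4 * Complex.I + (3) * v ^ 2 * z ^ 2 * Complex.I + (3) * w * v * z ^ 2 * Complex.I + (3) * w * v ^ 3 * Complex.I + (27) * z ^ 2 * Complex.I + (-9) * z ^ 3 + (27) * v ^ 2 * Complex.I + (18) * v ^ 2 * z + (9) * w * v * z + (-81) * z) * h3 + ((9)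 * z ^ 3 * Complex.I + (-3) * z ^ 4 + (18) * v ^ 2 * z * Complex.I + (3) * v ^ 2 * z ^ 2 + (-9) * w * v * z * Complex.I + (-3) * w * v * z ^ 2 + (3) * w * v ^ 3 + (81) * z * Complex.I + (-27) * z ^ 2 + (27) * v ^ 2) * h4 + ((1) * v * z ^ 4 + (2) * w * v ^ 2 * z ^ 2 + (1) * w ^ 2 * v ^ 3 + (-18) * v * z ^ 2 + (108) * w * z * Complex.I + (18) * w * v ^ 2 + (81) * v) * h5 - (((324) * w * z) * a0 + ((9) * z ^ 4 + (9) * v ^ 2 * z ^ 2 + (9) * w * v * z ^ 2 + (9) * w * v ^ 3 + (81) * z ^ 2 + (81) * v ^ 2) * a2 + ((-9) * v * z ^ 3 + (9) * w * z ^ 3 + (-9) * w * v ^ 2 * z + (9) * w ^ 2 * v * z + (81) * v * z + (243) * w * z) * c2) * hI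
  · linear_combination ((1) * w * z ^ 4 + (2) * w ^ 2 * v * z ^ 2 + (1) * w ^ 3 * v ^ 2 + (-54) * v * z * Complex.I + (9) * v * z ^ 2 + (-54) * w * z * Complex.I + (27) * w * z ^ 2 + (9) * w ^ 2 * v + (-9) * w ^ 3 + (-81) * v) * h0 + ((-9) * v * z ^ 2 * Complex.I + (6) * w * z ^ 3 + (6) * w ^ 2 * v * z + (-9) * w ^ 3 * Complex.I + (-81) * v * Complex.I + (54) * w * z) * h1 + ((-3) * z ^ 4 * Complex.I + (-3) * w * v * z ^ 2 * Complex.I + (-3) * w ^ 2 * z ^ 2 * Complex.I + (-3) * w ^ 3 * v * Complex.I + (-27) * z ^ 2 * Complex.I + (-9) * z ^ 3 + (9) * w * v * z + (-27) * w ^ 2 * Complex.I + (18) * w ^ 2 * z + (-81) * z) * h2 + ((-1) * z ^ 5 + (-2) * w * v * z ^ 3 + (-1) * w ^ 2 * v ^ 2 * z + (-18) * z ^ 3 + (27) * v ^ 2 * Complex.I + (9) * v ^ 2 * z + (-27) * w ^ 2 * Complex.I + (9) * w ^ 2 * z + (-81) * z) * h3 + ((9) * z ^ 3 * Complex.I + (-3) * z ^ 4 + (-9)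 * v ^ 2 * z * Complex.I + (9) * w * v * z * Complex.I + (9) * w ^ 2 * z * Complex.I + (3) * w ^ 2 * v ^ 2 + (81) * z * Complex.I + (-27) * z ^ 2 + (27) * v ^ 2 + (27) * w * v + (-27) * w ^ 2) * h4 + ((-3) * v * z ^ 3 * Complex.I + (3) * w * z ^ 3 * Complex.I + (-3) * w * v ^ 2 * z * Complex.I + (3) * w ^ 2 * v * z * Complex.I + (27) * v * z * Complex.I + (-9) * v * z ^ 2 + (81) * w * z * Complex.I + (-18) * w * z ^ 2 + (9) * w * v ^ 2 + (81) * v) * h5 - (((-9) * v * z ^ 3 + (9) * w * z ^ 3 + (-9) * w * v ^ 2 * z + (9) * w ^ 2 * v * z + (81) * v * z + (243) * w * z) * a0 + ((81) * v ^ 2 + (-81) * w ^ 2) * a2 + ((9) * z ^ 4 + (9) * w * v * z ^ 2 + (9) * w ^ 2 * z ^ 2 + (9) * w ^ 3 * v + (81) * z ^ 2 + (81) * w ^ 2) * c0 + ((162) * v * z + (162) * w * z) * c2) * hI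
  · linear_combination ((-9) * v * z ^ 2 * Complex.I + (6) * w * z ^ 3 + (6) * w ^ 2 * v * z + (-9) * w ^ 3 * Complex.I + (-81) * v * Complex.I + (54) * w * z) * h0 + ((1) * w * z ^ 4 + (2) * w ^ 2 * v * z ^ 2 + (1) * w ^ 3 * v ^ 2 + (-54) * v * z * Complex.I + (-9) * v * z ^ 2 + (54) * w * z * Complex.I + (27) * w * z ^ 2 + (9) * w ^ 2 * v + (9) * w ^ 3 + (81) * v) * h1 + ((-9) * z ^ 3 * Complex.I + (-3) * z ^ 4 + (9) * w * v * z * Complex.I + (-3) * w * v * z ^ 2 + (-18) * w ^ 2 * z * Complex.I + (3) * w ^ 2 * z ^ 2 + (3) * w ^ 3 * v + (-81) * z * Complex.I + (-27) * z ^ 2 + (27) * w ^ 2) * h2 + ((-9) * z ^ 3 * Complex.I + (-3) * z ^ 4 + (-9) * v ^ 2 * z * Complex.I + (-9) * w * v * z * Complex.I + (9) * w ^ 2 * z * Complex.I + (3) * w ^ 2 * v ^ 2 + (-81) * z * Complex.I + (-27) * z ^ 2 + (-27) * v ^ 2 + (27) * w * v + (27) * w ^ 2) * h3 + ((-1) * z ^ 5 +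 (-2) * w * v * z ^ 3 + (-1) * w ^ 2 * v ^ 2 * z + (-18) * z ^ 3 + (27) * v ^ 2 * Complex.I + (-9) * v ^ 2 * z + (-27) * w ^ 2 * Complex.I + (-9) * w ^ 2 * z + (-81) * z) * h4 + ((-9) * v * z ^ 2 * Complex.I + (-3) * v * z ^ 3 + (18) * w * z ^ 2 * Complex.I + (-3) * w * z ^ 3 + (9) * w * v ^ 2 * Complex.I + (-3) * w * v ^ 2 * z + (-3) * w ^ 2 * v * z + (81) * v * Complex.I + (27) * v * z + (-81) * w * z) * h5 - (((-27) * v * z ^ 2 + (54) * w * z ^ 2 + (27) * w * v ^ 2 + (243) * v) * a0 + ((-27) * z ^ 3 + (-27) * v ^ 2 * z + (-27) * w * v * z + (27) * w ^ 2 * z + (-243) * z) * a2 + ((27) * z ^ 3 + (-27) * w * v * z + (54) * w ^ 2 * z + (243) * z) * c0 + ((27) * v * z ^ 2 + (27) * w ^ 3 + (243) * v) * c2) * hI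
  · linear_combination ((-3) * z ^ 4 * Complex.I + (-3) * w * v * z ^ 2 * Complex.I + (-3) * w ^ 2 * z ^ 2 * Complex.I + (-3) * w ^ 3 * v * Complex.I + (-27) * z ^ 2 * Complex.I + (-9) * z ^ 3 + (9) * w * v * z + (-27) * w ^ 2 * Complex.I + (18) * w ^ 2 * z + (-81) * z) * h0 + ((-9) * z ^ 3 * Complex.I + (-3) * z ^ 4 + (9) * w * v * z * Complex.I + (-3) * w * v * z ^ 2 + (-18) * w ^ 2 * z * Complex.I + (3) * w ^ 2 * z ^ 2 + (3) * w ^ 3 * v + (-81) * z * Complex.I + (-27) * z ^ 2 + (27) * w ^ 2) * h1 + ((1) * w * z ^ 4 + (2) * w ^ 2 * v * z ^ 2 + (1) * w ^ 3 * v ^ 2 + (-108) * v * z * Complex.I + (-18) * w * z ^ 2 + (18) * w ^ 2 * v + (81) * w) * h2 + ((-3) * v * z ^ 3 * Complex.I + (3) * w * z ^ 3 * Complex.I + (-3) * w * v ^ 2 * z * Complex.I + (3) * w ^ 2 * v * z * Complex.I + (-81) * v * z * Complex.I + (-18) * v * z ^ 2 + (-27) * w * z * Complex.I + (-9)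 * w * z ^ 2 + (9) * w ^ 2 * v + (81) * w) * h3 + ((-18) * v * z ^ 2 * Complex.I + (-3) * v * z ^ 3 + (9) * w * z ^ 2 * Complex.I + (-3) * w * z ^ 3 + (-3) * w * v ^ 2 * z + (-9) * w ^ 2 * v * Complex.I + (-3) * w ^ 2 * v * z + (-81) * v * z + (-81) * w * Complex.I + (27) * w * z) * h4 + ((-1) * z ^ 5 + (-2) * w * v * z ^ 3 + (-1) * w ^ 2 * v ^ 2 * z + (-36) * w * v * z + (81) * z) * h5 - (((-9) * v * z ^ 3 + (9) * w * z ^ 3 + (-9) * w * v ^ 2 * z + (9) * w ^ 2 * v * z + (-243) * v * z + (-81) * w * z) * a2 + ((324) * v * z) * c0 + ((9) * z ^ 4 + (9) * w * v * z ^ 2 + (9) * w ^ 2 * z ^ 2 + (9) * w ^ 3 * v + (81) * z ^ 2 + (81) * w ^ 2) * c2) * hI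

/-- localizer -/
noncomputable def loc (x : Fin 3 → ℝ) : Matrix (Fin 3 × Fin 2) (Fin 3 × Fin 2) ℂ :=
  ∑ j : Fin 3, Matrix.kronecker (tri j - ((x j : ℂ)) • (1 : Matrix (Fin 3) (Fin 3) ℂ)) (pauli j)

lemma ker_iff (x : Fin 3 → ℝ) (u : Fin 3 × Fin 2 → ℂ) (w v z : ℂ)
    (hw : w = x 0 + x 1 * Complex.I) (hv : v = x 0 - x 1 * Complex.I) (hz : z = x 2) :
    loc x *ᵥ u = 0 ↔
      (((-1) * z) * u (0, 0) + ((3)) * u (1, 0) + ((-1) * v) * u (0, 1) + ((-3) * Complex.I) * u (2, 1) = 0) ∧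
      (((-1) * w) * u (0, 0) + ((3) * Complex.I) * u (2, 0) + ((1) * z) * u (0, 1) + ((-3)) * u (1, 1) = 0) ∧
      (((3)) * u (0, 0) + ((-1) * z) * u (1, 0) + ((-1) * v) * u (1, 1) + ((3)) * u (2, 1) = 0) ∧
      (((-1) * w) * u (1, 0) + ((3)) * u (2, 0) + ((-3)) * u (0, 1) + ((1) * z) * u (1, 1) = 0) ∧
      (((-1) * z) * u (2, 0) + ((-3) * Complex.I) * u (0, 1) + ((3)) * u (1, 1) + ((-1) * v) * u (2, 1) = 0) ∧
      (((3) * Complex.I) * u (0, 0) + ((3)) * u (1, 0) + ((-1) * w) * u (2, 0) + ((1) * z) * u (2, 1) = 0) := by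
  subst hw hv hz
  simp only [funext_iff, Prod.forall, Fin.forall_fin_succ, and_assoc]
  simp only [loc, Matrix.mulVec, dotProduct, Fintype.sum_prod_type, Fin.sum_univ_succ,
    Matrix.sum_apply, Matrix.kronecker, kroneckerMap_apply]
  simp [tri, pauli, Matrix.one_apply]
  refine and_congr ?_ (and_congr ?_ (and_congr ?_ (and_congr ?_ (and_congr ?_ ?_)))) <;>
    constructor <;> intro h <;> linear_combination h

lemma real_part (x y z : ℝ)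
    (h : (x ^ 2 + y ^ 2 + z ^ 2) * (x ^ 2 + y ^ 2 + z ^ 2 + 9) ^ 2 = 432 * (x * y * z)) :
    (x = 0 ∧ y = 0 ∧ z = 0) ∨ (x ^ 2 = 1 ∧ y ^ 2 = 1 ∧ z ^ 2 = 1 ∧ x * y * z = 1) := by
  set s := x ^ 2 + y ^ 2 + z ^ 2 with hs
  have hs0 : 0 ≤ s := by positivity
  rcases hs0.eq_or_lt with h0 | h0
  · left
    refine ⟨?_, ?_, ?_⟩ <;> nlinarith [sq_nonneg x, sq_nonneg y, sq_nonneg z]
  right
  have am : ∀ a b c : ℝ, 0 ≤ a → 0 ≤ b → 0 ≤ c → 27 * (a * b * c) +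
      (a + b + c) / 2 * ((a - b) ^ 2 + (b - c) ^ 2 + (c - a) ^ 2) ≤ (a + b + c) ^ 3 := by
    intro a b c ha hb hc
    nlinarith [mul_nonneg ha (sq_nonneg (b - c)), mul_nonneg hb (sq_nonneg (c - a)),
      mul_nonneg hc (sq_nonneg (a - b))]
  have h1 := am (x ^ 2) (y ^ 2) (z ^ 2) (sq_nonneg _) (sq_nonneg _) (sq_nonneg _)
  rw [← hs] at h1
  set e := (x ^ 2 - y ^ 2) ^ 2 + (y ^ 2 - z ^ 2) ^ 2 + (z ^ 2 - x ^ 2) ^ 2 with he
  have he0 : 0 ≤ e := by positivity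
  have h2 : s ^ 2 * (s + 9) ^ 4 = 432 ^ 2 * (x ^ 2 * y ^ 2 * z ^ 2) := by
    have := congrArg (fun t => t ^ 2) h
    linear_combination this
  have h3 : s ^ 2 * ((s - 3) ^ 2 * (s ^ 2 + 42 * s + 729)) + 3456 * (s * e) ≤ 0 := by
    have : s ^ 2 * ((s - 3) ^ 2 * (s ^ 2 + 42 * s + 729)) + 3456 * (s * e) =
        6912 * (27 * (x ^ 2 * y ^ 2 * z ^ 2) + s / 2 * e - s ^ 3) := by linear_combination h2
    rw [this]; linarith only [h1]
  have h4 : 0 ≤ s ^ 2 * ((s - 3) ^ 2 * (s ^ 2 + 42 * s + 729)) := by positivity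
  have h5 : 0 ≤ s * e := by positivity
  have h6 : s * e = 0 := by linarith
  have h7 : s ^ 2 * ((s - 3) ^ 2 * (s ^ 2 + 42 * s + 729)) = 0 := by linarith
  have h8 : e = 0 := by simpa [h0.ne'] using h6
  have h9 : s = 3 := by
    have hp : s ^ 2 + 42 * s + 729 ≠ 0 := by positivity
    have : (s - 3) ^ 2 = 0 := by simpa [h0.ne', hp] using h7
    have := pow_eq_zero_iff (two_ne_zero) |>.1 this
    linarith
  have e1 : x ^ 2 = y ^ 2 := by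
    have : (x ^ 2 - y ^ 2) ^ 2 = 0 := by
      linarith only [h8, he, sq_nonneg (x ^ 2 - y ^ 2), sq_nonneg (y ^ 2 - z ^ 2), sq_nonneg (z ^ 2 - x ^ 2)]
    have := pow_eq_zero_iff (two_ne_zero) |>.1 this
    linarith
  have e2 : y ^ 2 = z ^ 2 := by
    have : (y ^ 2 - z ^ 2) ^ 2 = 0 := by
      linarith only [h8, he, sq_nonneg (x ^ 2 - y ^ 2), sq_nonneg (y ^ 2 - z ^ 2), sq_nonneg (z ^ 2 - x ^ 2)]
    have := pow_eq_zero_iff (two_ne_zero) |>.1 this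
    linarith
  rw [h9] at h
  refine ⟨by linarith, by linarith, by linarith, by linarith⟩

lemma sing (x : Fin 3 → ℝ) (a0 a1 a2 c0 c2 : ℂ) (w v z : ℂ)
    (hw : w = x 0 + x 1 * Complex.I) (hv : v = x 0 - x 1 * Complex.I) (hz : z = x 2)
    (h0 : ((-1) * z) * a0 + ((3)) * a1 + ((-1) * v) * c0 + ((-3) * Complex.I) * c2 = 0)
    (h3 : ((-1) * w) * a0 + ((3) * Complex.I) * a2 + ((1) * z) * c0 + ((-3)) * 1 = 0)
    (h1 : ((3)) * a0 + ((-1) * z) * a1 + ((-1) * v) * 1 + ((3)) * c2 = 0)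
    (h4 : ((-1) * w) * a1 + ((3)) * a2 + ((-3)) * c0 + ((1) * z) * 1 = 0)
    (h2 : ((-1) * z) * a2 + ((-3) * Complex.I) * c0 + ((3)) * 1 + ((-1) * v) * c2 = 0)
    (h5 : ((3) * Complex.I) * a0 + ((3)) * a1 + ((-1) * w) * a2 + ((1) * z) * c2 = 0) :
    (loc x).det = 0 := by
  rw [← Matrix.exists_mulVec_eq_zero_iff]
  refine ⟨fun p => ![![a0, c0], ![a1, 1], ![a2, c2]] p.1 p.2, fun h => ?_, ?_⟩
  · have := congrFun h (1, 1)
    simp at this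
  · rw [ker_iff x _ w v z hw hv hz]
    exact ⟨h0, h3, h1, h4, h2, h5⟩

theorem spec : {x : Fin 3 → ℝ | (loc x).det = 0} =
    {![0, 0, 0], ![1, 1, 1], ![1, -1, -1], ![-1, 1, -1], ![-1, -1, 1]} := by
  ext x
  simp only [Set.mem_ofPred_eq, Set.mem_insert_iff, Set.mem_singleton_iff]
  constructor
  · intro h
    obtain ⟨u, hu0, hu⟩ := Matrix.exists_mulVec_eq_zero_iff.2 h
    obtain ⟨h0, h3, h1, h4, h2, h5⟩ := (ker_iff x u _ _ _ rfl rfl rfl).1 hu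
    have hq : ∀ w v z : ℂ, w = x 0 + x 1 * Complex.I → v = x 0 - x 1 * Complex.I → z = x 2 →
        ((432 * (x 0 * x 1 * x 2) - (x 0 ^ 2 + x 1 ^ 2 + x 2 ^ 2) *
          (x 0 ^ 2 + x 1 ^ 2 + x 2 ^ 2 + 9) ^ 2 : ℝ) : ℂ) = (-1) * z ^ 6 + (-3) * w * v * z ^ 4 + (-3) * w ^ 2 * v ^ 2 * z ^ 2 + (-1) * w ^ 3 * v ^ 3 + (-18) * z ^ 4 + (108) * v ^ 2 * z * Complex.I + (-36) * w * v * z ^ 2 + (-108) * w ^ 2 * z * Complex.I + (-18) * w ^ 2 * v ^ 2 + (-81) * z ^ 2 + (-81) * w * v := by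
      intro w v z hw hv hz
      have e1 : w * v = (x 0) ^ 2 + (x 1) ^ 2 := by
        rw [hw, hv]; linear_combination (-(x 1 : ℂ) ^ 2) * Complex.I_sq
      have e2 : (v ^ 2 - w ^ 2) * Complex.I = 4 * x 0 * x 1 := by
        rw [hw, hv]; linear_combination (-4 * (x 0 : ℂ) * x 1) * Complex.I_sq
      have e3 : (-1) * z ^ 6 + (-3) * w * v * z ^ 4 + (-3) * w ^ 2 * v ^ 2 * z ^ 2 + (-1) * w ^ 3 * v ^ 3 + (-18) * z ^ 4 + (108) * v ^ 2 * z * Complex.I + (-36) * w * v * z ^ 2 + (-108) * w ^ 2 * z * Complex.I + (-18) * w ^ 2 * v ^ 2 + (-81) * z ^ 2 + (-81) * w * v = 108 * z * ((v ^ 2 - w ^ 2) * Complex.I) - (w * v + z ^ 2) * (w * v + z ^ 2 + 9) ^ 2 := by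
        ring
      rw [e3, e1, e2, hz]; push_cast; ring
    obtain ⟨k0, k1, k2, k3, k4, k5⟩ := adjug _ _ _ _ _ _ _ _ _ h0 h1 h2 h3 h4 h5 _
      (hq _ _ _ rfl rfl rfl)
    have hz : 432 * (x 0 * x 1 * x 2) - (x 0 ^ 2 + x 1 ^ 2 + x 2 ^ 2) *
          (x 0 ^ 2 + x 1 ^ 2 + x 2 ^ 2 + 9) ^ 2 = 0 := by
      by_contra hne
      have hne' := Complex.ofReal_ne_zero.2 hne
      apply hu0
      funext ⟨p, t⟩
      fin_cases p <;> fin_cases t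
      exacts [(mul_eq_zero.1 k0).resolve_left hne', (mul_eq_zero.1 k3).resolve_left hne',
        (mul_eq_zero.1 k1).resolve_left hne', (mul_eq_zero.1 k4).resolve_left hne',
        (mul_eq_zero.1 k2).resolve_left hne', (mul_eq_zero.1 k5).resolve_left hne']
    have hx : x = ![x 0, x 1, x 2] := by
      funext i; fin_cases i <;> rfl
    rcases real_part (x 0) (x 1) (x 2) (by linarith) with ⟨a, b, c⟩ | ⟨a, b, c, d⟩
    · left; rw [hx, a, b, c]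
    · right
      rw [sq_eq_one_iff] at a b c
      rcases a with a | a <;> rcases b with b | b <;> rcases c with c | c <;>
        rw [a, b, c] at d <;> rw [hx, a, b, c] <;> first | (exfalso; linarith) | simp
  · rintro (rfl | rfl | rfl | rfl | rfl)
    · refine sing _ 0 0 (-Complex.I) (-Complex.I) 0 _ _ _ rfl rfl rfl ?_ ?_ ?_ ?_ ?_ ?_ <;>
        simp [Complex.ext_iff]
    · refine sing _ (4/13 - 7/13 * Complex.I) (-1/13 - 8/13 * Complex.I) (3/13 - 15/13 * Complex.I)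
        (5/13 - 12/13 * Complex.I) 0 _ _ _ rfl rfl rfl ?_ ?_ ?_ ?_ ?_ ?_ <;>
        simp [Complex.ext_iff] <;> norm_num
    · refine sing _ (4/13 + 7/13 * Complex.I) (1/13 - 8/13 * Complex.I) (-3/13 - 15/13 * Complex.I)
        (-5/13 - 12/13 * Complex.I) 0 _ _ _ rfl rfl rfl ?_ ?_ ?_ ?_ ?_ ?_ <;>
        simp [Complex.ext_iff] <;> norm_num
    · refine sing _ (-4/13 - 7/13 * Complex.I) (-1/13 + 8/13 * Complex.I) (-3/13 - 15/13 * Complex.I)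
        (-5/13 - 12/13 * Complex.I) 0 _ _ _ rfl rfl rfl ?_ ?_ ?_ ?_ ?_ ?_ <;>
        simp [Complex.ext_iff] <;> norm_num
    · refine sing _ (-4/13 + 7/13 * Complex.I) (1/13 + 8/13 * Complex.I) (3/13 - 15/13 * Complex.I)
        (5/13 - 12/13 * Complex.I) 0 _ _ _ rfl rfl rfl ?_ ?_ ?_ ?_ ?_ ?_ <;>
        simp [Complex.ext_iff] <;> norm_num

lemma pauli_herm (j : Fin 3) : (pauli j).IsHermitian := by
  fin_cases j <;> ext a b <;> fin_cases a <;> fin_cases b <;> simp [pauli]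

lemma pauli_rel (j l : Fin 3) :
    pauli j * pauli l + pauli l * pauli j = if j = l then 2 else 0 := by
  fin_cases j <;> fin_cases l <;> ext a b <;> fin_cases a <;> fin_cases b <;>
    simp [pauli, Matrix.ofNat_apply] <;> norm_num

lemma pauli_irr (W : Submodule ℂ (Fin 2 → ℂ)) (h : ∀ j, ∀ v ∈ W, pauli j *ᵥ v ∈ W) :
    W = ⊥ ∨ W = ⊤ := by
  by_cases hb : W = ⊥
  · exact Or.inl hb
  right
  obtain ⟨v, hv, hv0⟩ := (Submodule.ne_bot_iff W).1 hb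
  have sw : ∀ u ∈ W, ![u 1, u 0] ∈ W := by
    intro u hu
    have := h 0 u hu
    have e : pauli 0 *ᵥ u = ![u 1, u 0] := by
      funext i; fin_cases i <;> simp [pauli, vecHead, vecTail]
    rwa [e] at this
  have pj : ∀ u ∈ W, u 0 ≠ 0 → ![1, 0] ∈ W := by
    intro u hu h0
    have := W.smul_mem (2 * u 0)⁻¹ (W.add_mem hu (h 2 u hu))
    have e : (2 * u 0)⁻¹ • (u + pauli 2 *ᵥ u) = ![1, 0] := by
      funext i; fin_cases i <;> simp [pauli, vecHead, vecTail]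
      field_simp; ring
    rwa [e] at this
  have h1 : ![1, 0] ∈ W := by
    by_cases h0 : v 0 = 0
    · refine pj _ (sw v hv) fun h1 => hv0 ?_
      funext i; fin_cases i
      · exact h0
      · simpa using h1
    · exact pj v hv h0
  have h2 : ![0, 1] ∈ W := by simpa using sw _ h1
  rw [eq_top_iff]
  intro u _
  have e : u = u 0 • ![1, 0] + u 1 • ![0, 1] := by
    funext i; fin_cases i <;> simp
  rw [e]
  exact W.add_mem (W.smul_mem _ h1) (W.smul_mem _ h2)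

end Pool.Agent.H.MP_fa5fea_an
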